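import Pool.Agent.Y501.SY.PubT

/-!
Measurable closed two-forms: the definitions used in the statement.
-/

set_option autoImplicit false

open Set Filter Topology MeasureTheory
open scoped Manifold ContDiff

noncomputable section

namespace Pool.Agent.U896.SWP

open Pool.Agent.Y501.SYP

/-- Lebesgue measure on Euclidean space -/
def leb (d : ℕ) : Measure (ES d) := (volume : Measure (EuclideanSpace ℝ (Fin d)))

variable {d : ℕ} {X : Type} [TopologicalSpace X] [ChartedSpace (ES d) X]

/-- null sets: sets which are null sets in the charts -/
def NullSet (N : Set X) : Prop :=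
  ∀ z : X, leb d ((chartAt (ES d) z).target ∩ (chartAt (ES d) z).symm ⁻¹' N) = 0

/-- forms which are measurable and locally integrable in the charts -/
def LocInt (σ : Form (ES d) X 2) : Prop :=
  ∀ z : X, LocallyIntegrableOn (pb (chartAt (ES d) z).symm σ) (chartAt (ES d) z).target (leb d)

/-- `σ` is closed in the sense of distributions: in the charts, the integral of `dg ∧ σ` (evaluated
on three constant vectors `u`, `v`, `w`) is zero for all smooth functions `g` with compact
support. -/
def WeaklyClosed (σ : Form (ES d) X 2) : Prop :=
  ∀ (z : X) (g : ES d → ℝ), ContDiff ℝ ∞ g → HasCompactSupport g →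
    tsupport g ⊆ (chartAt (ES d) z).target → ∀ u v w : ES d,
      ∫ q, (fderiv ℝ g q u * pb (chartAt (ES d) z).symm σ q ![v, w] -
        fderiv ℝ g q v * pb (chartAt (ES d) z).symm σ q ![u, w] +
        fderiv ℝ g q w * pb (chartAt (ES d) z).symm σ q ![u, v]) ∂(leb d) = 0

end Pool.Agent.U896.SWP
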