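import Pool.Agent.U896.SW.Weak

/-!
# Measurable closed two-forms: weakly closed forms are limits of smooth closed forms
-/

set_option autoImplicit false

open Set Filter Topology MeasureTheory
open scoped Manifold ContDiff ENNReal

noncomputable section

namespace Pool.Agent.U896.SW

open Pool.Agent.Y501.SY (E Moll S_SM)
open Pool.Agent.Y515.SY
open Pool.Agent.U896
open Pool.Agent.U896.SE hiding sq aff_null

variable {d : ℕ}

theorem mo_eq {ρ : E d → ℝ} (Φ : E d → Al d 2) (p : E d) : mo ρ Φ p = ∫ y, ρ y • Φ (p + y) := by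
  unfold mo JJ
  refine integral_congr_ae (Eventually.of_forall fun y => ?_)
  dsimp only
  have h1 : fderiv ℝ (fun _ : E d => (1 : ℝ)) p = 0 := (hasFDerivAt_const (1 : ℝ) p).fderiv
  rw [h1, comp_id, one_smul]

theorem mo_near {ρ : E d → ℝ} {ε : ℝ} (hρ : Moll ε ρ) {g : E d → Al d 2} (hg : Integrable g)
    {p : E d} {b : ℝ} (hb : ∀ y, ‖y‖ ≤ ε → ‖g (p + y) - g p‖ ≤ b) : ‖mo ρ g p - g p‖ ≤ b := by
  have hi1 : Integrable (fun y => ρ y • g (p + y)) := by
    have h1 := JJ_int' (χ := fun _ => 1) (p := p) hρ.smooth.continuous (moll_cs hρ) hg one_pos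
    refine h1.congr (Eventually.of_forall fun y => ?_)
    dsimp only
    have h2 : fderiv ℝ (fun _ : E d => (1 : ℝ)) p = 0 := (hasFDerivAt_const (1 : ℝ) p).fderiv
    rw [h2, comp_id, one_smul]
  have hi2 : Integrable (fun y => ρ y • g p) := (moll_int hρ).smul_const _
  have h1 : mo ρ g p - g p = ∫ y, ρ y • (g (p + y) - g p) := by
    have h2 : g p = ∫ y, ρ y • g p := by rw [integral_smul_const, hρ.int, one_smul]
    have h3 : mo ρ g p - g p = (∫ y, ρ y • g (p + y)) - ∫ y, ρ y • g p := by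
      rw [mo_eq, ← h2]
    rw [h3, ← integral_sub hi1 hi2]
    refine integral_congr_ae (Eventually.of_forall fun y => ?_)
    exact (smul_sub _ _ _).symm
  rw [h1]
  have h2 : ∫ y, ρ y * b = b := by rw [integral_mul_const, hρ.int, one_mul]
  rw [← h2]
  refine norm_integral_le_of_norm_le ((moll_int hρ).mul_const b) (Eventually.of_forall fun y => ?_)
  rw [norm_smul, Real.norm_of_nonneg (hρ.nonneg y)]
  by_cases hy : ‖y‖ ≤ ε
  · exact mul_le_mul_of_nonneg_left (hb y hy) (hρ.nonneg y)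
  · rw [hρ.supp y (not_le.1 hy).le, zero_mul, zero_mul]

/-- the mollifications converge in `L¹` on balls -/
theorem mo_L1 {Φ : E d → Al d 2} (hΦ : Integrable Φ) (p₀ : E d) {R : ℝ} {δ : ℝ} (hδ : 0 < δ) :
    ∃ ε₀ : ℝ, 0 < ε₀ ∧ ∀ (ε : ℝ) (ρ : E d → ℝ), 0 < ε → ε ≤ ε₀ → Moll ε ρ →
      ∫⁻ p in Metric.ball p₀ R, ‖Φ p - mo ρ Φ p‖ₑ ≤ ENNReal.ofReal δ := by
  have hδ₁ : ENNReal.ofReal (δ / 20) ≠ 0 := by
    rw [Ne, ENNReal.ofReal_eq_zero, not_le]
    positivity
  obtain ⟨g, hgc, hg1, hgco, hgi⟩ := hΦ.exists_hasCompactSupport_lintegral_sub_le hδ₁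
  obtain ⟨B, hB⟩ : ∃ B : ℝ, B = (volume (Metric.ball p₀ R)).toReal := ⟨_, rfl⟩
  have hB0 : 0 ≤ B := by rw [hB]; exact ENNReal.toReal_nonneg
  obtain ⟨δ₂, hδ₂⟩ : ∃ δ₂ : ℝ, δ₂ = δ / (2 * (B + 1)) := ⟨_, rfl⟩
  have hδ₂0 : 0 < δ₂ := by rw [hδ₂]; positivity
  obtain ⟨r, hr, hr'⟩ := Metric.uniformContinuousOn_iff.1
    ((isCompact_closedBall p₀ (R + 1)).uniformContinuousOn_of_continuous hgco.continuousOn)
    δ₂ hδ₂0
  obtain ⟨θ, hθ, hdet⟩ := det_near (d := d)
  refine ⟨min 1 (r / 2), lt_min one_pos (by positivity), ?_⟩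
  intro ε ρ hε hεε hρ
  have hε1 : ε ≤ 1 := hεε.trans (min_le_left _ _)
  have hε2 : ε ≤ r / 2 := hεε.trans (min_le_right _ _)
  have h1 : ∀ p ∈ Metric.ball p₀ R, ‖g p - mo ρ g p‖ₑ ≤ ENNReal.ofReal δ₂ := by
    intro p hp
    rw [← ofReal_norm, norm_sub_rev]
    refine ENNReal.ofReal_le_ofReal (mo_near hρ hgi fun y hy => ?_)
    rw [Metric.mem_ball] at hp
    have h2 : dist (p + y) p₀ ≤ R + 1 := by
      have h3 : dist (p + y) p = ‖y‖ := by rw [dist_eq_norm, add_sub_cancel_left]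
      have h4 := dist_triangle (p + y) p p₀
      linarith
    have h3 := hr' (p + y) h2 p (by
      rw [Metric.mem_closedBall]
      linarith) (by
      rw [dist_eq_norm, add_sub_cancel_left]
      linarith)
    rw [dist_eq_norm] at h3
    exact h3.le
  have h2 : ∫⁻ p in Metric.ball p₀ R, ‖mo ρ g p - mo ρ Φ p‖ₑ ≤ 8 * ENNReal.ofReal (δ / 20) := by
    have h3 := JJ_L1 (χ := fun _ => 1) (D := 0) (θ := θ) (B := Metric.ball p₀ R) (O := univ)
      hε.le hρ contDiff_const (fun _ => Or.inl one_pos)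
      (fun p => by rw [(hasFDerivAt_const (1 : ℝ) p).fderiv, norm_zero]) (by linarith)
      (by linarith) hdet Metric.isOpen_ball (fun _ _ _ _ => mem_univ _) hgi hΦ
    rw [setLIntegral_univ] at h3
    have h4 : ∫⁻ p, ‖g p - Φ p‖ₑ = ∫⁻ p, ‖Φ p - g p‖ₑ := by
      refine lintegral_congr fun p => ?_
      rw [← ofReal_norm, ← ofReal_norm, norm_sub_rev]
    rw [h4] at h3
    refine h3.trans ?_
    gcongr
  have hm1 : AEMeasurable (fun p => ‖Φ p - g p‖ₑ) (volume.restrict (Metric.ball p₀ R)) :=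
    ((hΦ.aestronglyMeasurable.sub hgi.aestronglyMeasurable).enorm).restrict
  have hm2 : AEMeasurable (fun p => ‖g p - mo ρ g p‖ₑ) (volume.restrict (Metric.ball p₀ R)) := by
    have h3 : Continuous (mo ρ g) := continuous_iff_continuousAt.2 fun p =>
      (mo_smooth hρ hgi p).continuousAt
    exact ((hgco.sub h3).enorm).measurable.aemeasurable
  calc ∫⁻ p in Metric.ball p₀ R, ‖Φ p - mo ρ Φ p‖ₑ
      ≤ ∫⁻ p in Metric.ball p₀ R, ((‖Φ p - g p‖ₑ + ‖g p - mo ρ g p‖ₑ) +
          ‖mo ρ g p - mo ρ Φ p‖ₑ) := by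
        refine lintegral_mono fun p => ?_
        rw [← ofReal_norm, ← ofReal_norm, ← ofReal_norm, ← ofReal_norm,
          ← ENNReal.ofReal_add (norm_nonneg _) (norm_nonneg _),
          ← ENNReal.ofReal_add (by positivity) (norm_nonneg _)]
        refine ENNReal.ofReal_le_ofReal ?_
        have h5 : Φ p - mo ρ Φ p = (Φ p - g p) + (g p - mo ρ g p) + (mo ρ g p - mo ρ Φ p) := by
          abel
        rw [h5]
        exact norm_add₃_le
    _ = (∫⁻ p in Metric.ball p₀ R, ‖Φ p - g p‖ₑ) + (∫⁻ p in Metric.ball p₀ R, ‖g p - mo ρ g p‖ₑ) +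
          ∫⁻ p in Metric.ball p₀ R, ‖mo ρ g p - mo ρ Φ p‖ₑ := by
        have hm12 : AEMeasurable (fun p => ‖Φ p - g p‖ₑ + ‖g p - mo ρ g p‖ₑ)
            (volume.restrict (Metric.ball p₀ R)) := hm1.add hm2
        rw [lintegral_add_left' hm12, lintegral_add_left' hm1]
    _ ≤ ENNReal.ofReal (δ / 20) + ENNReal.ofReal δ₂ * ENNReal.ofReal B +
          8 * ENNReal.ofReal (δ / 20) := by
        refine add_le_add (add_le_add ?_ ?_) h2
        · exact (setLIntegral_le_lintegral _ _).trans hg1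
        · refine (setLIntegral_mono' (g := fun _ => ENNReal.ofReal δ₂)
            Metric.isOpen_ball.measurableSet h1).trans ?_
          rw [setLIntegral_const, hB, ENNReal.ofReal_toReal measure_ball_lt_top.ne]
    _ ≤ ENNReal.ofReal δ := by
        have h5 : (8 : ℝ≥0∞) = ENNReal.ofReal 8 := by norm_num
        rw [h5, ← ENNReal.ofReal_mul hδ₂0.le, ← ENNReal.ofReal_mul (by norm_num),
          ← ENNReal.ofReal_add (by positivity) (by positivity),
          ← ENNReal.ofReal_add (by positivity) (by positivity)]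
        refine ENNReal.ofReal_le_ofReal ?_
        have h6 : δ₂ * B ≤ δ / 2 := by
          rw [hδ₂, div_mul_eq_mul_div, div_le_div_iff₀ (by positivity) two_pos]
          nlinarith
        linarith

/-- weakly closed forms are locally limits of smooth closed forms -/
theorem LCp_of_weak {T : Set (E d)} (hT : IsOpen T) {s : E d → Al d 2}
    (hs : LocallyIntegrableOn s T)
    (hw : ∀ g : E d → ℝ, ContDiff ℝ ∞ g → HasCompactSupport g → tsupport g ⊆ T →
      ∀ u v w : E d, ∫ q, (fderiv ℝ g q u * s q ![v, w] - fderiv ℝ g q v * s q ![u, w] +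
        fderiv ℝ g q w * s q ![u, v]) = 0) {p₀ : E d} (hp₀ : p₀ ∈ T) : LCp s p₀ := by
  obtain ⟨R₁, hR₁, hRT⟩ := Metric.nhds_basis_closedBall.mem_iff.1 (hT.mem_nhds hp₀)
  obtain ⟨R, hR⟩ : ∃ R : ℝ, R = R₁ / 2 := ⟨_, rfl⟩
  have hR0 : 0 < R := by rw [hR]; positivity
  obtain ⟨Q, hQ⟩ : ∃ Q, Q = Metric.closedBall p₀ R₁ := ⟨_, rfl⟩
  rw [← hQ] at hRT
  have hQc : IsCompact Q := by rw [hQ]; exact isCompact_closedBall _ _
  have hi : IntegrableOn s Q volume := (hs.mono_set hRT).integrableOn_isCompact hQc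
  have hOQ : Metric.ball p₀ R ⊆ Q := by
    rw [hQ]
    exact Metric.ball_subset_closedBall.trans (Metric.closedBall_subset_closedBall (by linarith))
  have hΦ : Integrable (Q.indicator s) := (integrable_indicator_iff hQc.measurableSet).2
    ⟨hi.1, hasFiniteIntegral_iff_enorm.2 (hasFiniteIntegral_iff_enorm.1 hi.2)⟩
  refine ⟨R, hR0, hi.1.mono_set hOQ, ?_, fun δ hδ => ?_⟩
  · exact (lintegral_mono_set hOQ).trans_lt (hasFiniteIntegral_iff_enorm.1 hi.2)
  · obtain ⟨ε₀, hε₀, hmo⟩ := mo_L1 hΦ p₀ (R := R) hδ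
    obtain ⟨ρ, hρ⟩ := moll_exists (d := d) (lt_min hε₀ hR0)
    refine ⟨mo ρ (Q.indicator s), fun p _ => (mo_smooth hρ hΦ p).contDiffWithinAt,
      fun p hp => ?_, ?_⟩
    · refine mo_closed hρ hΦ ?_ hRT hw
      rw [hQ]
      refine Metric.closedBall_subset_closedBall' ?_
      rw [Metric.mem_ball] at hp
      have := min_le_right ε₀ R
      linarith
    · refine le_trans (le_of_eq ?_) (hmo _ ρ (lt_min hε₀ hR0) (min_le_left _ _) hρ)
      refine setLIntegral_congr_fun Metric.isOpen_ball.measurableSet fun p hp => ?_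
      simp only [indicator_of_mem (hOQ hp)]

end Pool.Agent.U896.SW
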