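import Pool.Agent.U896.SW.MainM
import Pool.Agent.U896.SW.Weak2
import Pool.Agent.U896.SW.PubM
import Pool.Agent.U896.SE.FinalE

/-!
# Measurable closed two-forms: the main theorem, with the public definitions
-/

set_option autoImplicit false

open Set Filter Topology MeasureTheory
open scoped Manifold ContDiff

noncomputable section

namespace Pool.Agent.U896.SWP

open Pool.Agent.Y501
open Pool.Agent.Y501.SYP
open Pool.Agent.U896.SEP

section

variable {d : ℕ} {X : Type} [TopologicalSpace X] [ChartedSpace (ES d) X]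

attribute [local instance] cs mf

theorem lc_of [IsManifold 𝓘(ℝ, ES d) ∞ X] {σ : Form (ES d) X 2} (hi : LocInt σ)
    (hw : WeaklyClosed σ) (z : X) (p : SY.E d) (hp : p ∈ (chartAt (SY.E d) z).target) :
    SW.LCn (d := d) (SY.pb (d := d) (X := X) (chartAt (SY.E d) z).symm σ) p :=
  SW.LCp_of_weak (d := d) (chartAt (SY.E d) z).open_target (hi z) (hw z) hp

theorem ecc_off' {K N : Set X} (hK : IsClosed K) (hNK : N ⊆ K) {σ : Form (ES d) X 2}
    (hσ : ClosedOff σ K) [IsManifold 𝓘(ℝ, ES d) ∞ X] {J : End (ES d) X}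
    (hpos : ∀ x, x ∉ N → ∀ v : TangentSpace 𝓘(ℝ, ES d) x, 0 ≤ qd σ J x v) {x : X} (hx : x ∉ K) :
    SE.EccAt (d := d) (X := X) σ J N x := by
  obtain ⟨c, hc, C, h⟩ := ecc_off hK hσ (fun y hy => hpos y fun h => hy (hNK h)) hx
  refine ⟨c, hc, C, ?_⟩
  have h2 : ∀ᶠ p in 𝓝 (chartAt (SY.E d) x x), (chartAt (SY.E d) x).symm p ∉ K := by
    have h3 : ContinuousAt (chartAt (SY.E d) x).symm (chartAt (SY.E d) x x) :=
      (chartAt (SY.E d) x).continuousAt_symm (mem_chart_target (SY.E d) x)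
    refine h3.eventually (hK.isOpen_compl.mem_nhds ?_)
    rw [(chartAt (SY.E d) x).left_inv (mem_chart_source (SY.E d) x)]
    exact hx
  filter_upwards [h, h2] with p hp hpK _
  exact hp hpK

theorem measurableM [IsManifold 𝓘(ℝ, ES d) ∞ X] [CompactSpace X] [T2Space X] (hd : 0 < d)
    (J : End (ES d) X) (hJ : IsAlmostComplex J) (K N : Set X) (hK : IsClosed K) (hNK : N ⊆ K)
    (hN : NullSet (d := d) N) (σ : Form (ES d) X 2) (hσ : ClosedOff σ K) (hi : LocInt σ)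
    (hw : WeaklyClosed σ) (hb : ∀ x ∈ K, EccNear σ J N x)
    (hpos : ∀ x, x ∉ N → ∀ v : TangentSpace 𝓘(ℝ, ES d) x, 0 ≤ qd σ J x v)
    (hsmall : ∀ z ∈ Crit σ J N, SmallAll J (connectedComponentIn (Crit σ J N) z) z)
    (U : Set X) (hU : IsOpen U) (hKU : K ⊆ U) :
    ∃ (α : Form (ES d) X 1) (η w : Form (ES d) X 2), IsSmooth α ∧ IsSmooth η ∧ IsD α η ∧
      IsTamingSymplectic w J ∧ ∀ x, x ∉ U → w x = addF σ η x := by
  obtain ⟨α, η, w, h1, h2, h3, h4, h5, h6, h7⟩ := SW.mainM (d := d) (X := X) hd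
    Pool.Agent.Y44.SY.t_IMM Pool.Agent.Y44.SY.t_QB Pool.Agent.Y394.SY.t_SM
    Pool.Agent.Y949.SY.t_PATCH2
    (J := J) (ac_of J hJ) (K := K) (N := N) hK hNK hN (σ := σ)
    (fun V φ hV hφ hp => (hσ V φ ⟨hV, hφ⟩ hp).1)
    (fun V φ hV hφ hp p hpV => (hσ V φ ⟨hV, hφ⟩ hp).2 p hpV)
    (lc_of hi hw)
    (fun x => by
      by_cases hx : x ∈ K
      · exact hb x hx
      · exact ecc_off' hK hNK hσ hpos hx)
    hpos (fun z hz => smallAll_of hJ (hsmall z hz)) hU hKU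
  exact ⟨α, η, w, (smooth_iff α).2 h1, (smooth_iff η).2 h2, (isD_iff α η).2 h3,
    symp_of ((smooth_iff w).2 h4) ((closed_iff w).2 h5) h6, h7⟩

end

end Pool.Agent.U896.SWP
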