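import Pool.Agent.U896.SW.AvC

/-!
# Measurable closed two-forms: regularization in a chart
-/

set_option autoImplicit false

open Set Filter Topology MeasureTheory
open scoped Manifold ContDiff ENNReal

noncomputable section

namespace Pool.Agent.U896.SW

open Pool.Agent.Y501.SY (E Moll S_SM)
open Pool.Agent.Y515.SY
open Pool.Agent.U896
open Pool.Agent.U896.SE hiding sq aff_null

variable {d : ℕ}

theorem JJ_sc' (hSM : S_SM) {ρ χ : E d → ℝ} {ε : ℝ} (hρ : Moll ε ρ) (hχ : ContDiff ℝ ∞ χ)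
    {O : Set (E d)} (hO : IsOpen O) {Φ : E d → Al d 2} (h1 : ContDiffOn ℝ ∞ Φ O)
    (h2 : ∀ p ∈ O, extDeriv Φ p = 0) {p : E d} (hp : ∀ y, ‖y‖ ≤ ε → p + χ p • y ∈ O) :
    ContDiffAt ℝ ∞ (JJ ρ χ Φ) p ∧ extDeriv (JJ ρ χ Φ) p = 0 := by
  obtain ⟨g1, g2⟩ := JJ_sm hSM hρ hχ hO h1 hp
  refine ⟨g1, ?_⟩
  have h3 := g2 (fun _ => 0) (integrable_zero _ _ _) (fun _ => le_rfl) (fun y hy => by
    rw [h2 _ (hp y hy)]
    have : (0 : Al d 3).compContinuousLinearMap (LL (fderiv ℝ χ p) y) = 0 := by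
      apply ContinuousAlternatingMap.ext
      intro v
      rfl
    rw [this, norm_zero, mul_zero])
  rw [integral_zero] at h3
  exact norm_le_zero_iff.1 h3

/-- the condition near a point -/
def LCp (s : E d → Al d 2) (p : E d) : Prop := ∃ r : ℝ, 0 < r ∧ LCl s (Metric.ball p r)

theorem regM (hSM : S_SM) {V k N : Set (E d)} {χ : E d → ℝ}
    {s : E d → Al d 2} {Js : E d → (E d →L[ℝ] E d)} {c : ℝ} (hc : 0 < c) (hV : IsOpen V)
    (hVk : IsOpen (V \ k)) (hNk : N ⊆ k)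
    (hnull' : ∀ Q : Set (E d), IsCompact Q → Q ⊆ V → volume (N ∩ Q) = 0)
    (hLC : ∀ p ∈ V, LCp s p)
    (hχ : ContDiff ℝ ∞ χ) (hχ0 : ∀ p, 0 ≤ χ p) (hχc : HasCompactSupport χ) (hχV : tsupport χ ⊆ V)
    (hs : ContDiffOn ℝ ∞ s (V \ k)) (hcl : ∀ p ∈ V \ k, extDeriv s p = 0)
    (hJ : ContinuousOn Js V)
    (hpos : ∀ p ∈ V \ N, ∀ v : E d, c * (1 + ‖s p‖) * ‖v‖ ^ 2 ≤ s p ![v, Js p v]) :
    ∃ (s' : E d → Al d 2) (c' : ℝ), 0 < c' ∧
      ContDiffOn ℝ ∞ s' (V \ (k ∩ {p | χ p = 0})) ∧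
      (∀ p ∈ V \ (k ∩ {p | χ p = 0}), extDeriv s' p = 0) ∧
      (∀ p, χ p = 0 → s' p = s p) ∧
      (∀ p ∈ V \ (N ∩ {p | χ p = 0}), ∀ v : E d,
        c' * (1 + ‖s' p‖) * ‖v‖ ^ 2 ≤ s' p ![v, Js p v]) ∧
      ∀ p ∈ V, LCp s' p := by
  obtain ⟨r, hr, hrV⟩ := IsCompact.exists_cthickening_subset_open hχc hV hχV
  set Q : Set (E d) := Metric.cthickening r (tsupport χ) with hQdef
  have hQ : IsCompact Q := IsCompact.cthickening hχc
  have hNQ : tsupport χ ⊆ Q := Metric.self_subset_cthickening _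
  have hGQ : Metric.thickening r (tsupport χ) ⊆ Q := Metric.thickening_subset_cthickening _ _
  -- a uniform radius
  obtain ⟨δ, hδ, hδr, hδL⟩ : ∃ δ : ℝ, 0 < δ ∧ δ ≤ r ∧ ∀ p ∈ tsupport χ,
      LCl s (Metric.ball p δ) := by
    choose! R hR0 hR using hLC
    obtain ⟨δ, hδ, hδ'⟩ := lebesgue_number_lemma_of_metric (s := tsupport χ)
      (c := fun x : V => Metric.ball (x : E d) (R x)) hχc (fun x => Metric.isOpen_ball)
      (fun p hp => mem_iUnion.2 ⟨⟨p, hχV hp⟩, Metric.mem_ball_self (hR0 p (hχV hp))⟩)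
    refine ⟨min δ r, lt_min hδ hr, min_le_right _ _, fun p hp => ?_⟩
    obtain ⟨x, hx⟩ := hδ' p hp
    exact (hR x x.2).mono ((Metric.ball_subset_ball (min_le_left _ _)).trans hx)
  have hΦi' : IntegrableOn s Q volume := by
    refine LocallyIntegrableOn.integrableOn_isCompact (fun x hx => ?_) hQ
    obtain ⟨R, hR, hL⟩ := hLC x (hrV hx)
    exact ⟨Metric.ball x R, mem_nhdsWithin_of_mem_nhds (Metric.ball_mem_nhds x hR),
      hL.meas, hasFiniteIntegral_iff_enorm.2 hL.fin⟩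
  set Φ : E d → Al d 2 := Q.indicator s with hΦ
  have hΦi : Integrable Φ := by
    rw [hΦ]
    exact (integrable_indicator_iff hQ.measurableSet).2
      ⟨hΦi'.1, hasFiniteIntegral_iff_enorm.2 (hasFiniteIntegral_iff_enorm.1 hΦi'.2)⟩
  have hΦs : ∀ p ∈ Q, Φ p = s p := fun p hp => indicator_of_mem hp s
  -- constants
  obtain ⟨S₀, hS₀⟩ := hQ.exists_bound_of_continuousOn (hJ.mono hrV)
  set S : ℝ := max S₀ 0 with hSdef
  have hS0 : 0 ≤ S := le_max_right _ _
  have hS : ∀ p ∈ Q, ‖Js p‖ ≤ S := fun p hp => (hS₀ p hp).trans (le_max_left _ _)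
  obtain ⟨D, hD⟩ := (hχ.continuous_fderiv (by simp)).bounded_above_of_compact_support
    (hχc.fderiv ℝ)
  have hD0 : 0 ≤ D := (norm_nonneg _).trans (hD 0)
  obtain ⟨X, hX⟩ := hχ.continuous.bounded_above_of_compact_support hχc
  have hX0 : 0 ≤ X := (norm_nonneg _).trans (hX 0)
  obtain ⟨r₃, hr₃, hr₃'⟩ := Metric.uniformContinuousOn_iff.1
    (hQ.uniformContinuousOn_of_continuous (hJ.mono hrV)) (c / 4) (by positivity)
  obtain ⟨θ, hθ, hdet⟩ := det_near (d := d)
  obtain ⟨ε, hεdef⟩ : ∃ ε : ℝ, ε = min (min (min (δ / (4 * (X + 1))) (r₃ / (2 * (X + 1))))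
    (c / (8 * ((D + 1) * (S + 1))))) (min (θ / (D + 1)) (1 / (2 * (D + 1)))) := ⟨_, rfl⟩
  have hε : 0 < ε := by
    rw [hεdef]
    refine lt_min (lt_min (lt_min (by positivity) (by positivity)) (by positivity))
      (lt_min (by positivity) (by positivity))
  have hε₁ : ε ≤ δ / (4 * (X + 1)) := by
    rw [hεdef]; exact (min_le_left _ _).trans ((min_le_left _ _).trans (min_le_left _ _))
  have hε₂ : ε ≤ r₃ / (2 * (X + 1)) := by
    rw [hεdef]; exact (min_le_left _ _).trans ((min_le_left _ _).trans (min_le_right _ _))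
  have hε₃ : ε ≤ c / (8 * ((D + 1) * (S + 1))) := by
    rw [hεdef]; exact (min_le_left _ _).trans (min_le_right _ _)
  have hε₄ : ε ≤ θ / (D + 1) := by
    rw [hεdef]; exact (min_le_right _ _).trans (min_le_left _ _)
  have hε₅ : ε ≤ 1 / (2 * (D + 1)) := by
    rw [hεdef]; exact (min_le_right _ _).trans (min_le_right _ _)
  rw [le_div_iff₀ (by positivity)] at hε₁ hε₂ hε₃ hε₄ hε₅
  have hDε1 : D * ε < 1 := by nlinarith
  have hDεθ : D * ε ≤ θ := by nlinarith
  obtain ⟨ρ, hρ⟩ := moll_exists (d := d) hε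
  have hmove : ∀ p y : E d, ‖y‖ ≤ ε → ‖χ p • y‖ ≤ X * ε := by
    intro p y hy
    rw [norm_smul]
    exact mul_le_mul (hX p) hy (norm_nonneg _) hX0
  have hBO : ∀ p₀ : E d, ∀ p ∈ Metric.ball p₀ (δ / 2), ∀ y, ‖y‖ ≤ ε →
      p + χ p • y ∈ Metric.ball p₀ δ := by
    intro p₀ p hp y hy
    rw [Metric.mem_ball, dist_eq_norm] at hp ⊢
    have h1 : p + χ p • y - p₀ = (p - p₀) + χ p • y := by abel
    rw [h1]
    refine (norm_add_le _ _).trans_lt ?_
    have h2 := hmove p y hy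
    nlinarith
  have hball : ∀ p ∈ tsupport χ, ∀ y, ‖y‖ ≤ ε → p + χ p • y ∈ Metric.ball p δ :=
    fun p _ y hy => hBO p p (Metric.mem_ball_self (by positivity)) y hy
  have hOQ : ∀ p ∈ tsupport χ, Metric.ball p δ ⊆ Q := by
    intro p hp q hq
    apply hGQ
    rw [Metric.mem_thickening_iff]
    exact ⟨p, hp, lt_of_lt_of_le (Metric.mem_ball.1 hq) hδr⟩
  have hin : ∀ p, χ p ≠ 0 → p ∈ tsupport χ := fun p hp => subset_tsupport χ hp
  have hfd : ∀ p, χ p = 0 → fderiv ℝ χ p = 0 := by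
    intro p hp
    apply IsLocalMin.fderiv_eq_zero
    refine Eventually.of_forall fun x => ?_
    rw [hp]
    exact hχ0 x
  have hχ00 : ∀ p, 0 < χ p ∨ (χ p = 0 ∧ fderiv ℝ χ p = 0) := by
    intro p
    rcases (hχ0 p).lt_or_eq with h | h
    · exact Or.inl h
    · exact Or.inr ⟨h.symm, hfd p h.symm⟩
  classical
  set J : E d → Al d 2 := JJ ρ χ Φ with hJdef
  obtain ⟨s', hs'⟩ : ∃ s' : E d → Al d 2, ∀ p, s' p = if χ p = 0 then s p else J p :=
    ⟨_, fun _ => rfl⟩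
  -- near the points of the support
  have hloc : ∀ p₀ ∈ tsupport χ, ∀ p ∈ Metric.ball p₀ (δ / 2),
      s' p = JJ ρ χ ((Metric.ball p₀ δ).indicator s) p := by
    intro p₀ hp₀ p hp
    rw [hs' p]
    split_ifs with h
    · rw [JJ_eq hρ _ h (hfd p h)]
      exact (indicator_of_mem (Metric.ball_subset_ball (by linarith) hp) _).symm
    · rw [hJdef]
      refine JJ_congr hρ fun y hy => ?_
      have h1 := hBO p₀ p hp y hy
      rw [indicator_of_mem h1, hΦs _ (hOQ p₀ hp₀ h1)]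
  have hev : ∀ p₀ ∈ tsupport χ, s' =ᶠ[𝓝 p₀] JJ ρ χ ((Metric.ball p₀ δ).indicator s) := by
    intro p₀ hp₀
    filter_upwards [Metric.ball_mem_nhds p₀ (half_pos hδ)] with p hp
    exact hloc p₀ hp₀ p hp
  set Ω : Set (E d) := V \ (k ∩ {p | χ p = 0}) with hΩ
  have hsplit : ∀ p ∈ Ω, (χ p = 0 ∧ p ∈ V \ k) ∨ (0 < χ p ∧ p ∈ V) := by
    intro p hp
    by_cases h : χ p = 0
    · exact Or.inl ⟨h, hp.1, fun hk => hp.2 ⟨hk, h⟩⟩
    · exact Or.inr ⟨lt_of_le_of_ne (hχ0 p) (Ne.symm h), hp.1⟩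
  have hev2 : ∀ p, p ∉ tsupport χ → s' =ᶠ[𝓝 p] s := by
    intro p hp
    filter_upwards [notMem_tsupport_iff_eventuallyEq.1 hp] with q hq
    have hq' : χ q = 0 := hq
    rw [hs' q, if_pos hq']
  have hsm : ∀ p ∈ Ω, ContDiffAt ℝ ∞ s' p ∧ extDeriv s' p = 0 := by
    intro p hp
    by_cases hpt : p ∈ tsupport χ
    · have hO : IsOpen (Metric.ball p δ) := Metric.isOpen_ball
      have hL := hδL p hpt
      have h1 : ContDiffAt ℝ ∞ (JJ ρ χ ((Metric.ball p δ).indicator s)) p ∧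
          extDeriv (JJ ρ χ ((Metric.ball p δ).indicator s)) p = 0 := by
        rcases hsplit p hp with h | h
        · have hOk : IsOpen (Metric.ball p δ ∩ (V \ k)) := hO.inter hVk
          have hpk : p ∈ Metric.ball p δ ∩ (V \ k) := ⟨Metric.mem_ball_self hδ, h.2⟩
          refine JJ_sc' hSM hρ hχ hOk ?_ ?_ (p := p) (fun y _ => by
            rw [h.1, zero_smul, add_zero]
            exact hpk)
          · refine (hs.mono inter_subset_right).congr fun q hq => ?_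
            exact indicator_of_mem hq.1 _
          · intro q hq
            have h3 : (Metric.ball p δ).indicator s =ᶠ[𝓝 q] s := by
              filter_upwards [hO.mem_nhds hq.1] with x hx
              exact indicator_of_mem hx _
            rw [h3.extDeriv_eq, hcl q hq.2]
        · exact ⟨JJ_smooth' hχ h.1 hρ.smooth (moll_cs hρ) (ind_int hO hL.meas hL.fin),
            LCl_closed hSM hρ hχ hO h.1 (hball p hpt) hL⟩
      refine ⟨h1.1.congr_of_eventuallyEq (hev p hpt), ?_⟩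
      rw [(hev p hpt).extDeriv_eq]
      exact h1.2
    · have hpV : p ∈ V \ k := by
        rcases hsplit p hp with h | h
        · exact h.2
        · exact absurd (hin p h.1.ne') hpt
      refine ⟨(hs.contDiffAt (hVk.mem_nhds hpV)).congr_of_eventuallyEq (hev2 p hpt), ?_⟩
      rw [(hev2 p hpt).extDeriv_eq]
      exact hcl p hpV
  have hDε : 0 ≤ D * ε := by positivity
  have hl1 : 1 ≤ (1 + D * ε) ^ 2 := by nlinarith
  refine ⟨s', c / 2 / (1 + D * ε) ^ 2, by positivity, ?_, ?_, ?_, ?_, ?_⟩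
  · intro p hp
    exact (hsm p hp).1.contDiffWithinAt
  · intro p hp
    exact (hsm p hp).2
  · intro p hp
    rw [hs' p, if_pos hp]
  · intro p hp v
    by_cases h0 : χ p = 0
    · have hpN : p ∈ V \ N := ⟨hp.1, fun h => hp.2 ⟨h, h0⟩⟩
      rw [hs' p, if_pos h0]
      refine le_trans ?_ (hpos p hpN v)
      have h1 : c / 2 / (1 + D * ε) ^ 2 ≤ c := by
        rw [div_le_iff₀ (by positivity)]
        nlinarith
      have h2 : 0 ≤ (1 + ‖s p‖) := by positivity
      exact mul_le_mul_of_nonneg_right (mul_le_mul_of_nonneg_right h1 h2) (sq_nonneg _)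
    · have hp0 : 0 < χ p := lt_of_le_of_ne (hχ0 p) (Ne.symm h0)
      rw [hs' p, if_neg h0]
      have hpN : p ∈ tsupport χ := hin p h0
      refine JJ_lb' hε.le hρ hΦi hc (δ₁ := c / 4) (by positivity) hp0 (hS p (hNQ hpN)) (hD p) ?_
        ?_ v
      · have h6 : D * S ≤ (D + 1) * (S + 1) := by nlinarith
        have h7 : ε * (D * S) ≤ ε * ((D + 1) * (S + 1)) := mul_le_mul_of_nonneg_left h6 hε.le
        nlinarith
      · filter_upwards [Pool.Agent.Y515.SY.aff_null (hnull' Q hQ hrV) p h0] with y hy hyε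
        have hyQ := hOQ p hpN (hball p hpN y hyε.le)
        have hyN : p + χ p • y ∉ N := fun h' => hy ⟨h', hyQ⟩
        refine ⟨?_, ?_⟩
        · have h2 : dist p (p + χ p • y) < r₃ := by
            rw [dist_eq_norm, sub_add_cancel_left, norm_neg]
            refine lt_of_le_of_lt (hmove p y hyε.le) ?_
            nlinarith
          have h3 := hr₃' p (hNQ hpN) _ hyQ h2
          rw [dist_eq_norm] at h3
          exact h3.le
        · intro v
          rw [hΦs _ hyQ]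
          exact hpos _ ⟨hrV hyQ, hyN⟩ v
  · intro p hp
    by_cases hpt : p ∈ tsupport χ
    · refine ⟨δ / 2, half_pos hδ, ?_⟩
      refine LCl.congr Metric.isOpen_ball ?_ (hloc p hpt)
      exact LCl_JJ hSM hε.le hρ hχ hχ00 hD hDε1 hDεθ hdet Metric.isOpen_ball Metric.isOpen_ball
        (hBO p) (hδL p hpt)
    · obtain ⟨R, hR, hL⟩ := hLC p hp
      have h1 : IsOpen (tsupport χ)ᶜ := (isClosed_tsupport χ).isOpen_compl
      obtain ⟨R', hR', hR''⟩ := Metric.isOpen_iff.1 h1 p hpt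
      refine ⟨min R R', lt_min hR hR', ?_⟩
      refine LCl.congr Metric.isOpen_ball (hL.mono (Metric.ball_subset_ball (min_le_left _ _)))
        fun q hq => ?_
      have hq' : q ∉ tsupport χ := hR'' (Metric.ball_subset_ball (min_le_right _ _) hq)
      rw [hs' q, if_pos (image_eq_zero_of_notMem_tsupport hq')]

end Pool.Agent.U896.SW
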