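import Pool.Agent.U896.SW.AvM

/-!
# Measurable closed two-forms: the averages are closed
-/

set_option autoImplicit false

open Set Filter Topology MeasureTheory
open scoped Manifold ContDiff ENNReal

noncomputable section

namespace Pool.Agent.U896.SW

open Pool.Agent.Y501.SY (E Moll S_SM)
open Pool.Agent.Y515.SY
open Pool.Agent.U896
open Pool.Agent.U896.SE hiding sq aff_null

variable {d : ℕ}

theorem ind_int {s : E d → Al d 2} {O : Set (E d)} (hO : IsOpen O)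
    (hm : AEStronglyMeasurable s (volume.restrict O)) (hf : ∫⁻ p in O, ‖s p‖ₑ < ⊤) :
    Integrable (O.indicator s) := by
  exact (integrable_indicator_iff hO.measurableSet).2 ⟨hm, hasFiniteIntegral_iff_enorm.2 hf⟩

theorem app_int {s Ψ : E d → Al d 2} {O : Set (E d)} (hO : IsOpen O)
    (hm : AEStronglyMeasurable s (volume.restrict O)) (hf : ∫⁻ p in O, ‖s p‖ₑ < ⊤)
    (hΨ : ContDiffOn ℝ ∞ Ψ O) {δ : ℝ} (h : ∫⁻ p in O, ‖s p - Ψ p‖ₑ ≤ ENNReal.ofReal δ) :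
    Integrable (O.indicator Ψ) := by
  have hΨm : AEStronglyMeasurable Ψ (volume.restrict O) :=
    hΨ.continuousOn.aestronglyMeasurable hO.measurableSet
  refine ind_int hO hΨm ?_
  have h1 : ∀ p, ‖Ψ p‖ₑ ≤ ‖s p‖ₑ + ‖s p - Ψ p‖ₑ := by
    intro p
    rw [← ofReal_norm, ← ofReal_norm, ← ofReal_norm,
      ← ENNReal.ofReal_add (norm_nonneg _) (norm_nonneg _)]
    refine ENNReal.ofReal_le_ofReal ?_
    have h2 : Ψ p = s p - (s p - Ψ p) := by abel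
    calc ‖Ψ p‖ = ‖s p - (s p - Ψ p)‖ := by rw [← h2]
      _ ≤ _ := norm_sub_le _ _
  refine (lintegral_mono h1).trans_lt ?_
  rw [lintegral_add_left' hm.enorm]
  exact ENNReal.add_lt_top.2 ⟨hf, h.trans_lt ENNReal.ofReal_lt_top⟩

theorem ind_sub {s Ψ : E d → Al d 2} {O : Set (E d)} (hO : IsOpen O) :
    ∫⁻ p in O, ‖O.indicator s p - O.indicator Ψ p‖ₑ = ∫⁻ p in O, ‖s p - Ψ p‖ₑ := by
  refine setLIntegral_congr_fun hO.measurableSet fun p hp => ?_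
  simp only [indicator_of_mem hp]

theorem ind_sub' {s Ψ : E d → Al d 2} {O : Set (E d)} (hO : IsOpen O) :
    ∫⁻ p, ‖O.indicator s p - O.indicator Ψ p‖ₑ = ∫⁻ p in O, ‖s p - Ψ p‖ₑ := by
  rw [← lintegral_indicator hO.measurableSet]
  refine lintegral_congr fun p => ?_
  by_cases hp : p ∈ O
  · simp only [indicator_of_mem hp]
  · simp only [indicator_of_notMem hp, sub_zero]
    rw [← ofReal_norm, norm_zero, ENNReal.ofReal_zero]

theorem JJ_sc (hSM : S_SM) {ρ χ : E d → ℝ} {ε : ℝ} (hρ : Moll ε ρ) (hχ : ContDiff ℝ ∞ χ)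
    {O : Set (E d)} (hO : IsOpen O) {Ψ : E d → Al d 2} (h1 : ContDiffOn ℝ ∞ Ψ O)
    (h2 : ∀ p ∈ O, extDeriv Ψ p = 0) {p : E d} (hp : ∀ y, ‖y‖ ≤ ε → p + χ p • y ∈ O) :
    ContDiffAt ℝ ∞ (JJ ρ χ (O.indicator Ψ)) p ∧ extDeriv (JJ ρ χ (O.indicator Ψ)) p = 0 := by
  have h1' : ContDiffOn ℝ ∞ (O.indicator Ψ) O :=
    h1.congr fun q hq => indicator_of_mem hq _
  have h2' : ∀ q ∈ O, extDeriv (O.indicator Ψ) q = 0 := by
    intro q hq
    have h3 : O.indicator Ψ =ᶠ[𝓝 q] Ψ := by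
      filter_upwards [hO.mem_nhds hq] with x hx
      exact indicator_of_mem hx _
    rw [h3.extDeriv_eq, h2 q hq]
  obtain ⟨g1, g2⟩ := JJ_sm hSM hρ hχ hO h1' hp
  refine ⟨g1, ?_⟩
  have h3 := g2 (fun _ => 0) (integrable_zero _ _ _) (fun _ => le_rfl) (fun y hy => by
    rw [h2' _ (hp y hy)]
    have : (0 : Al d 3).compContinuousLinearMap (LL (fderiv ℝ χ p) y) = 0 := by
      apply ContinuousAlternatingMap.ext
      intro v
      rfl
    rw [this, norm_zero, mul_zero])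
  rw [integral_zero] at h3
  exact norm_le_zero_iff.1 h3

theorem LCl_JJ (hSM : S_SM) {ρ χ : E d → ℝ} {ε D θ : ℝ} (hε : 0 ≤ ε) (hρ : Moll ε ρ)
    (hχ : ContDiff ℝ ∞ χ) (hχ0 : ∀ p, 0 < χ p ∨ (χ p = 0 ∧ fderiv ℝ χ p = 0))
    (hD : ∀ p, ‖fderiv ℝ χ p‖ ≤ D) (hDε : D * ε < 1) (hθ : D * ε ≤ θ)
    (hdet : ∀ A : E d →L[ℝ] E d, ‖A - ContinuousLinearMap.id ℝ (E d)‖ ≤ θ → 1 / 2 ≤ |A.det|)
    {B O : Set (E d)} (hB : IsOpen B) (hO : IsOpen O)
    (hBO : ∀ p ∈ B, ∀ y, ‖y‖ ≤ ε → p + χ p • y ∈ O)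
    {s : E d → Al d 2} (h : LCl s O) : LCl (JJ ρ χ (O.indicator s)) B := by
  have hsi : Integrable (O.indicator s) := ind_int hO h.meas h.fin
  refine ⟨(JJ_aesm hρ hχ hχ0 hsi).restrict, ?_, fun δ hδ => ?_⟩
  · have hz : Integrable (fun _ : E d => (0 : Al d 2)) volume :=
      (integrable_zero (E d) (Al d 2) volume).congr (Eventually.of_forall fun _ => rfl)
    have h1 := JJ_L1 hε hρ hχ hχ0 hD hDε hθ hdet hB hBO hsi hz
    have h2 : ∀ p, JJ ρ χ (fun _ => (0 : Al d 2)) p = 0 := fun p => JJ_zero p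
    have h3 : ∫⁻ p in O, ‖O.indicator s p - 0‖ₑ = ∫⁻ p in O, ‖s p‖ₑ := by
      refine setLIntegral_congr_fun hO.measurableSet fun p hp => ?_
      simp only [indicator_of_mem hp, sub_zero]
    simp only [h2, sub_zero] at h1 h3
    rw [h3] at h1
    exact h1.trans_lt (ENNReal.mul_lt_top (by norm_num) h.fin)
  · obtain ⟨Ψ, h1, h2, h3⟩ := h.app (δ / 8) (by positivity)
    have hΨi := app_int hO h.meas h.fin h1 h3
    refine ⟨JJ ρ χ (O.indicator Ψ), fun p hp =>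
      (JJ_sc hSM hρ hχ hO h1 h2 (hBO p hp)).1.contDiffWithinAt,
      fun p hp => (JJ_sc hSM hρ hχ hO h1 h2 (hBO p hp)).2, ?_⟩
    refine (JJ_L1 hε hρ hχ hχ0 hD hDε hθ hdet hB hBO hsi hΨi).trans ?_
    rw [ind_sub hO]
    calc 8 * ∫⁻ p in O, ‖s p - Ψ p‖ₑ ≤ 8 * ENNReal.ofReal (δ / 8) := by gcongr
      _ = ENNReal.ofReal 8 * ENNReal.ofReal (δ / 8) := by norm_num
      _ = ENNReal.ofReal δ := by
          rw [← ENNReal.ofReal_mul (by norm_num)]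
          congr 1
          ring

theorem LCl_closed (hSM : S_SM) {ρ χ : E d → ℝ} {ε : ℝ} (hρ : Moll ε ρ)
    (hχ : ContDiff ℝ ∞ χ) {O : Set (E d)} (hO : IsOpen O) {p₀ : E d} (hp : 0 < χ p₀)
    (hpO : ∀ y, ‖y‖ ≤ ε → p₀ + χ p₀ • y ∈ O)
    {s : E d → Al d 2} (h : LCl s O) : extDeriv (JJ ρ χ (O.indicator s)) p₀ = 0 := by
  have hρc := moll_cs hρ
  have hsi : Integrable (O.indicator s) := ind_int hO h.meas h.fin
  apply ContinuousAlternatingMap.ext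
  intro u
  change extDeriv (JJ ρ χ (O.indicator s)) p₀ u = 0
  obtain ⟨C, hC0, hC⟩ := JJ_ext_bd hρ hχ hp u
  have key : ∀ δ : ℝ, 0 < δ → |extDeriv (JJ ρ χ (O.indicator s)) p₀ u| ≤ C * δ := by
    intro δ hδ
    obtain ⟨Ψ, h1, h2, h3⟩ := h.app δ hδ
    have hΨi := app_int hO h.meas h.fin h1 h3
    obtain ⟨Ξ, hΞ⟩ : ∃ Ξ : E d → Al d 2, Ξ = fun p => O.indicator s p - O.indicator Ψ p :=
      ⟨_, rfl⟩
    have hΞi : Integrable Ξ := by
      rw [hΞ]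
      exact hsi.sub hΨi
    have hsum : JJ ρ χ (O.indicator s) =ᶠ[𝓝 p₀] JJ ρ χ (O.indicator Ψ) + JJ ρ χ Ξ := by
      filter_upwards [(isOpen_lt continuous_const hχ.continuous).mem_nhds hp] with p hp'
      rw [Pi.add_apply, ← JJ_add' hρ.smooth.continuous hρc hΨi hΞi hp']
      congr 1
      funext q
      rw [hΞ]
      simp only
      abel
    have hd1 : DifferentiableAt ℝ (JJ ρ χ (O.indicator Ψ)) p₀ :=
      (JJ_smooth' hχ hp hρ.smooth hρc hΨi).differentiableAt (by simp)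
    have hd2 : DifferentiableAt ℝ (JJ ρ χ Ξ) p₀ :=
      (JJ_smooth' hχ hp hρ.smooth hρc hΞi).differentiableAt (by simp)
    rw [hsum.extDeriv_eq, extDeriv_add hd1 hd2, (JJ_sc hSM hρ hχ hO h1 h2 hpO).2, zero_add]
    refine (hC Ξ hΞi).trans (mul_le_mul_of_nonneg_left ?_ hC0)
    rw [integral_norm_eq_lintegral_enorm hΞi.aestronglyMeasurable]
    refine ENNReal.toReal_le_of_le_ofReal hδ.le ?_
    rw [hΞ, ind_sub' hO]
    exact h3
  by_contra hne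
  have hpos : 0 < |extDeriv (JJ ρ χ (O.indicator s)) p₀ u| := abs_pos.2 hne
  have h1 := key (|extDeriv (JJ ρ χ (O.indicator s)) p₀ u| / (2 * (C + 1))) (by positivity)
  have h2 : C * (|extDeriv (JJ ρ χ (O.indicator s)) p₀ u| / (2 * (C + 1))) ≤
      |extDeriv (JJ ρ χ (O.indicator s)) p₀ u| / 2 := by
    rw [mul_div_assoc', div_le_div_iff₀ (by positivity) two_pos]
    nlinarith
  linarith

end Pool.Agent.U896.SW
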