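import Pool.Agent.U896.SW.LC

/-!
# Measurable closed two-forms: the averages
-/

set_option autoImplicit false

open Set Filter Topology MeasureTheory
open scoped Manifold ContDiff ENNReal

noncomputable section

namespace Pool.Agent.U896.SW

open Pool.Agent.Y501.SY (E Moll S_SM)
open Pool.Agent.Y515.SY
open Pool.Agent.U896
open Pool.Agent.U896.SE hiding sq aff_null

variable {d : ℕ}

/-- linear maps close to the identity have determinant at least one half -/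
theorem det_near : ∃ θ : ℝ, 0 < θ ∧ ∀ A : E d →L[ℝ] E d,
    ‖A - ContinuousLinearMap.id ℝ (E d)‖ ≤ θ → 1 / 2 ≤ |A.det| := by
  have h1 : ContinuousAt (fun A : E d →L[ℝ] E d => |A.det|) (ContinuousLinearMap.id ℝ (E d)) :=
    ContinuousLinearMap.continuous_det.continuousAt.abs
  have h2 : ∀ᶠ A in 𝓝 (ContinuousLinearMap.id ℝ (E d)), 1 / 2 < |A.det| := by
    refine h1.eventually_const_lt ?_
    change 1 / 2 < |(ContinuousLinearMap.id ℝ (E d)).det|
    have : (ContinuousLinearMap.id ℝ (E d)).det = 1 := LinearMap.det_id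
    rw [this]
    norm_num
  obtain ⟨θ, hθ, h3⟩ := Metric.nhds_basis_closedBall.eventually_iff.1 h2
  refine ⟨θ, hθ, fun A hA => (h3 ?_).le⟩
  rw [Metric.mem_closedBall, dist_eq_norm]
  exact hA

theorem TT_deriv {χ : E d → ℝ} (hχ : ContDiff ℝ ∞ χ) (y p : E d) :
    HasFDerivAt (fun p => p + χ p • y) (LL (fderiv ℝ χ p) y) p := by
  have h1 : HasFDerivAt χ (fderiv ℝ χ p) p :=
    (hχ.differentiable (by simp) p).hasFDerivAt
  exact (hasFDerivAt_id p).add (h1.smul_const y)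

theorem TT_inj {χ : E d → ℝ} (hχ : ContDiff ℝ ∞ χ) {D ε : ℝ} (hD : ∀ p, ‖fderiv ℝ χ p‖ ≤ D)
    (h : D * ε < 1) {y : E d} (hy : ‖y‖ ≤ ε) : Function.Injective (fun p => p + χ p • y) := by
  have hD0 : 0 ≤ D := (norm_nonneg _).trans (hD 0)
  intro p q hpq
  have hpq' : p + χ p • y = q + χ q • y := hpq
  have h1 : ‖χ p - χ q‖ ≤ D * ‖p - q‖ :=
    Convex.norm_image_sub_le_of_norm_fderiv_le (𝕜 := ℝ)
      (fun x _ => hχ.differentiable (by simp) x) (fun x _ => hD x) convex_univ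
      (mem_univ q) (mem_univ p)
  have h2 : p - q = -((χ p - χ q) • y) := by
    rw [sub_smul]
    have h3 : p = q + χ q • y - χ p • y := eq_sub_of_add_eq hpq'
    calc p - q = (q + χ q • y - χ p • y) - q := by rw [← h3]
      _ = _ := by abel
  have h3 : ‖p - q‖ ≤ D * ε * ‖p - q‖ := by
    calc ‖p - q‖ = ‖χ p - χ q‖ * ‖y‖ := by rw [h2, norm_neg, norm_smul]
      _ ≤ (D * ‖p - q‖) * ε := mul_le_mul h1 hy (norm_nonneg _) (by positivity)
      _ = _ := by ring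
  by_contra hne
  have h4 : 0 < ‖p - q‖ := norm_pos_iff.2 (sub_ne_zero.2 hne)
  nlinarith

theorem moll_lint {ε : ℝ} {ρ : E d → ℝ} (hρ : Moll ε ρ) : ∫⁻ y, ENNReal.ofReal (ρ y) = 1 := by
  rw [← ofReal_integral_eq_lintegral_ofReal (moll_int hρ) (Eventually.of_forall hρ.nonneg),
    hρ.int, ENNReal.ofReal_one]

theorem av_lint {ρ χ : E d → ℝ} {ε D θ : ℝ} (hρ : Moll ε ρ) (hχ : ContDiff ℝ ∞ χ)
    (hD : ∀ p, ‖fderiv ℝ χ p‖ ≤ D) (hDε : D * ε < 1) (hθ : D * ε ≤ θ)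
    (hdet : ∀ A : E d →L[ℝ] E d, ‖A - ContinuousLinearMap.id ℝ (E d)‖ ≤ θ → 1 / 2 ≤ |A.det|)
    {B O : Set (E d)} (hB : IsOpen B) (hBO : ∀ p ∈ B, ∀ y, ‖y‖ ≤ ε → p + χ p • y ∈ O)
    {f : E d → ℝ≥0∞} (hf : Measurable f) :
    ∫⁻ p in B, ∫⁻ y, ENNReal.ofReal (ρ y) * f (p + χ p • y) ≤ 2 * ∫⁻ p in O, f p := by
  have hD0 : 0 ≤ D := (norm_nonneg _).trans (hD 0)
  have hm : Measurable (fun q : E d × E d => ENNReal.ofReal (ρ q.2) * f (q.1 + χ q.1 • q.2)) := by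
    have h1 : Continuous (fun q : E d × E d => q.1 + χ q.1 • q.2) :=
      continuous_fst.add ((hχ.continuous.comp continuous_fst).smul continuous_snd)
    have h2 : Measurable (fun q : E d × E d => ENNReal.ofReal (ρ q.2)) :=
      (hρ.smooth.continuous.comp continuous_snd).measurable.ennreal_ofReal
    exact h2.mul (hf.comp h1.measurable)
  rw [lintegral_lintegral_swap hm.aemeasurable]
  have hin : ∀ y, ∫⁻ p in B, ENNReal.ofReal (ρ y) * f (p + χ p • y) ≤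
      ENNReal.ofReal (ρ y) * (2 * ∫⁻ p in O, f p) := by
    intro y
    by_cases hy : ‖y‖ ≤ ε
    · rw [lintegral_const_mul' _ _ ENNReal.ofReal_ne_top]
      refine mul_le_mul_right ?_ _
      have hfd : ∀ p, fderiv ℝ (fun p => p + χ p • y) p = LL (fderiv ℝ χ p) y := fun p =>
        (TT_deriv hχ y p).fderiv
      have h1 := lint_pull (O := O) (O' := B) (ψ := fun p => p + χ p • y) hB
        (fun q _ => by rw [hfd]; exact TT_deriv hχ y q) (fun p hp => hBO p hp y hy)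
        ((TT_inj hχ hD hDε hy).injOn) (μ := 1 / 2) (by norm_num) (fun q _ => by
          rw [hfd]
          apply hdet
          have h2 : LL (fderiv ℝ χ q) y - ContinuousLinearMap.id ℝ (E d) =
            (fderiv ℝ χ q).smulRight y := by
            unfold LL
            rw [add_sub_cancel_left]
          rw [h2, ContinuousLinearMap.norm_smulRight_apply]
          exact (mul_le_mul (hD q) hy (norm_nonneg _) hD0).trans hθ) f
      refine h1.trans (le_of_eq ?_)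
      congr 1
      norm_num
    · have h1 : ρ y = 0 := hρ.supp y (not_le.1 hy).le
      rw [h1, ENNReal.ofReal_zero]
      simp
  refine (lintegral_mono hin).trans (le_of_eq ?_)
  rw [lintegral_mul_const _ hρ.smooth.continuous.measurable.ennreal_ofReal, moll_lint hρ, one_mul]

/-- the average depends only on the values in a neighbourhood -/
theorem JJ_congr {ρ χ : E d → ℝ} {ε : ℝ} (hρ : Moll ε ρ) {Φ Ψ : E d → Al d 2} {p : E d}
    (h : ∀ y, ‖y‖ ≤ ε → Φ (p + χ p • y) = Ψ (p + χ p • y)) : JJ ρ χ Φ p = JJ ρ χ Ψ p := by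
  unfold JJ
  refine integral_congr_ae (Eventually.of_forall fun y => ?_)
  dsimp only
  by_cases hy : ‖y‖ ≤ ε
  · rw [h y hy]
  · rw [hρ.supp y (not_le.1 hy).le, zero_smul, zero_smul]

theorem JJ_pt {ρ χ : E d → ℝ} {ε D : ℝ} (hε : 0 ≤ ε) (hρ : Moll ε ρ) {p : E d}
    (hD : ‖fderiv ℝ χ p‖ ≤ D)
    (hχ0 : 0 < χ p ∨ (χ p = 0 ∧ fderiv ℝ χ p = 0)) {Φ Ψ : E d → Al d 2} (hΦ : Integrable Φ)
    (hΨ : Integrable Ψ) : ‖JJ ρ χ Φ p - JJ ρ χ Ψ p‖ₑ ≤
      ENNReal.ofReal ((1 + D * ε) ^ 2) *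
        ∫⁻ y, ENNReal.ofReal (ρ y) * ‖Φ (p + χ p • y) - Ψ (p + χ p • y)‖ₑ := by
  have hD0 : 0 ≤ D := (norm_nonneg _).trans hD
  rcases hχ0 with hp | ⟨hp, hp'⟩
  · have h1 : JJ ρ χ Φ p - JJ ρ χ Ψ p = ∫ y, ρ y •
        (Φ (p + χ p • y) - Ψ (p + χ p • y)).compContinuousLinearMap (LL (fderiv ℝ χ p) y) := by
      unfold JJ
      rw [← integral_sub (JJ_int' hρ.smooth.continuous (moll_cs hρ) hΦ hp)
        (JJ_int' hρ.smooth.continuous (moll_cs hρ) hΨ hp)]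
      refine integral_congr_ae (Eventually.of_forall fun y => ?_)
      dsimp only
      have h2 : (Φ (p + χ p • y) - Ψ (p + χ p • y)).compContinuousLinearMap
          (LL (fderiv ℝ χ p) y) = (Φ (p + χ p • y)).compContinuousLinearMap
          (LL (fderiv ℝ χ p) y) - (Ψ (p + χ p • y)).compContinuousLinearMap
          (LL (fderiv ℝ χ p) y) := rfl
      rw [h2]
      exact (smul_sub _ _ _).symm
    rw [h1]
    refine (enorm_integral_le_lintegral_enorm _).trans ?_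
    rw [← lintegral_const_mul' _ _ ENNReal.ofReal_ne_top]
    refine lintegral_mono fun y => ?_
    rw [← ofReal_norm, ← ofReal_norm, ← ENNReal.ofReal_mul (hρ.nonneg y),
      ← ENNReal.ofReal_mul (by positivity)]
    refine ENNReal.ofReal_le_ofReal ?_
    rw [norm_smul, Real.norm_of_nonneg (hρ.nonneg y)]
    by_cases hy : ‖y‖ ≤ ε
    · have h2 : ‖LL (fderiv ℝ χ p) y‖ ≤ 1 + D * ε := by
        refine (LL_norm _ _).trans ?_
        have := mul_le_mul hD hy (norm_nonneg _) hD0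
        linarith
      have h3 := comp_norm (Φ (p + χ p • y) - Ψ (p + χ p • y)) (LL (fderiv ℝ χ p) y)
      have h4 : ‖LL (fderiv ℝ χ p) y‖ ^ 2 ≤ (1 + D * ε) ^ 2 :=
        pow_le_pow_left₀ (norm_nonneg _) h2 2
      calc ρ y * ‖(Φ (p + χ p • y) - Ψ (p + χ p • y)).compContinuousLinearMap
            (LL (fderiv ℝ χ p) y)‖
          ≤ ρ y * (‖Φ (p + χ p • y) - Ψ (p + χ p • y)‖ * (1 + D * ε) ^ 2) := by
            refine mul_le_mul_of_nonneg_left (h3.trans ?_) (hρ.nonneg y)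
            exact mul_le_mul_of_nonneg_left h4 (norm_nonneg _)
        _ = _ := by ring
    · rw [hρ.supp y (not_le.1 hy).le, zero_mul, zero_mul, mul_zero]
  · rw [JJ_eq hρ _ hp hp', JJ_eq hρ _ hp hp']
    have h1 : ∀ y : E d, p + χ p • y = p := fun y => by rw [hp, zero_smul, add_zero]
    simp_rw [h1]
    rw [lintegral_mul_const _ hρ.smooth.continuous.measurable.ennreal_ofReal, moll_lint hρ,
      one_mul]
    refine le_mul_of_one_le_left bot_le ?_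
    rw [← ENNReal.ofReal_one]
    refine ENNReal.ofReal_le_ofReal ?_
    have : 0 ≤ D * ε := by positivity
    nlinarith

/-- the averages are continuous in `L¹` -/
theorem JJ_L1 {ρ χ : E d → ℝ} {ε D θ : ℝ} (hε : 0 ≤ ε) (hρ : Moll ε ρ) (hχ : ContDiff ℝ ∞ χ)
    (hχ0 : ∀ p, 0 < χ p ∨ (χ p = 0 ∧ fderiv ℝ χ p = 0))
    (hD : ∀ p, ‖fderiv ℝ χ p‖ ≤ D) (hDε : D * ε < 1) (hθ : D * ε ≤ θ)
    (hdet : ∀ A : E d →L[ℝ] E d, ‖A - ContinuousLinearMap.id ℝ (E d)‖ ≤ θ → 1 / 2 ≤ |A.det|)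
    {B O : Set (E d)} (hB : IsOpen B) (hBO : ∀ p ∈ B, ∀ y, ‖y‖ ≤ ε → p + χ p • y ∈ O)
    {Φ Ψ : E d → Al d 2} (hΦ : Integrable Φ) (hΨ : Integrable Ψ) :
    ∫⁻ p in B, ‖JJ ρ χ Φ p - JJ ρ χ Ψ p‖ₑ ≤ 8 * ∫⁻ p in O, ‖Φ p - Ψ p‖ₑ := by
  have hD0 : 0 ≤ D := (norm_nonneg _).trans (hD 0)
  have hm : AEMeasurable (fun p => ‖Φ p - Ψ p‖ₑ) volume :=
    (hΦ.aestronglyMeasurable.sub hΨ.aestronglyMeasurable).enorm
  obtain ⟨f, hfm, hf⟩ := hm
  obtain ⟨A, hA⟩ : ∃ A, A = {p | ‖Φ p - Ψ p‖ₑ ≠ f p} := ⟨_, rfl⟩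
  have hA0 : volume A = 0 := by rw [hA]; exact hf
  have hAf : ∀ p, p ∉ A → ‖Φ p - Ψ p‖ₑ = f p := by
    intro p hp
    by_contra h
    exact hp (by rw [hA]; exact h)
  have h1 : ∀ᵐ p : E d, ‖JJ ρ χ Φ p - JJ ρ χ Ψ p‖ₑ ≤ ENNReal.ofReal ((1 + D * ε) ^ 2) *
      ∫⁻ y, ENNReal.ofReal (ρ y) * f (p + χ p • y) := by
    filter_upwards [measure_eq_zero_iff_ae_notMem.1 hA0] with p hpA
    refine (JJ_pt hε hρ (hD p) (hχ0 p) hΦ hΨ).trans (le_of_eq ?_)
    congr 1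
    refine lintegral_congr_ae ?_
    rcases hχ0 p with hp | ⟨hp, -⟩
    · filter_upwards [Pool.Agent.Y515.SY.aff_null hA0 p hp.ne'] with y hy
      rw [hAf _ hy]
    · refine Eventually.of_forall fun y => ?_
      simp only [hp, zero_smul, add_zero]
      rw [hAf _ hpA]
  calc ∫⁻ p in B, ‖JJ ρ χ Φ p - JJ ρ χ Ψ p‖ₑ
      ≤ ∫⁻ p in B, ENNReal.ofReal ((1 + D * ε) ^ 2) *
        ∫⁻ y, ENNReal.ofReal (ρ y) * f (p + χ p • y) := lintegral_mono_ae (ae_restrict_of_ae h1)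
    _ = ENNReal.ofReal ((1 + D * ε) ^ 2) *
        ∫⁻ p in B, ∫⁻ y, ENNReal.ofReal (ρ y) * f (p + χ p • y) :=
        lintegral_const_mul' _ _ ENNReal.ofReal_ne_top
    _ ≤ 4 * (2 * ∫⁻ p in O, f p) := by
        refine mul_le_mul' ?_ (av_lint hρ hχ hD hDε hθ hdet hB hBO hfm)
        have h2 : (1 + D * ε) ^ 2 ≤ 4 := by
          have : 0 ≤ D * ε := by positivity
          nlinarith
        refine (ENNReal.ofReal_le_ofReal h2).trans (le_of_eq ?_)
        norm_num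
    _ = 8 * ∫⁻ p in O, ‖Φ p - Ψ p‖ₑ := by
        rw [← mul_assoc]
        have h3 : ∫⁻ p in O, f p = ∫⁻ p in O, ‖Φ p - Ψ p‖ₑ :=
          lintegral_congr_ae (ae_restrict_of_ae (hf.symm))
        rw [h3]
        norm_num

theorem JJ_zero {ρ χ : E d → ℝ} (p : E d) : JJ ρ χ (fun _ => 0) p = 0 := by
  unfold JJ
  have h1 : ∀ y : E d, ρ y • (0 : Al d 2).compContinuousLinearMap (LL (fderiv ℝ χ p) y) = 0 := by
    intro y
    have : (0 : Al d 2).compContinuousLinearMap (LL (fderiv ℝ χ p) y) = 0 := by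
      apply ContinuousAlternatingMap.ext
      intro v
      rfl
    rw [this, smul_zero]
  simp_rw [h1]
  exact integral_zero _ _

/-- the average of an integrable form is measurable -/
theorem JJ_aesm {ρ χ : E d → ℝ} {ε : ℝ} (hρ : Moll ε ρ) (hχ : ContDiff ℝ ∞ χ)
    (hχ0 : ∀ p, 0 < χ p ∨ (χ p = 0 ∧ fderiv ℝ χ p = 0))
    {Φ : E d → Al d 2} (hΦ : Integrable Φ) : AEStronglyMeasurable (JJ ρ χ Φ) volume := by
  have ho : IsOpen {p | 0 < χ p} := isOpen_lt continuous_const hχ.continuous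
  have h1 : (univ : Set (E d)) = {p | 0 < χ p} ∪ {p | 0 < χ p}ᶜ := (union_compl_self _).symm
  rw [← Measure.restrict_univ (μ := (volume : Measure (E d))), h1, aestronglyMeasurable_union_iff]
  constructor
  · refine ContinuousOn.aestronglyMeasurable (fun p hp => ?_) ho.measurableSet
    exact (JJ_smooth' hχ hp hρ.smooth (moll_cs hρ) hΦ).continuousAt.continuousWithinAt
  · refine (hΦ.aestronglyMeasurable.restrict).congr ?_
    filter_upwards [ae_restrict_mem ho.measurableSet.compl] with p hp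
    rcases hχ0 p with h | h
    · exact absurd h hp
    · exact (JJ_eq hρ _ h.1 h.2).symm

theorem JJ_ext_bd {ρ χ : E d → ℝ} {ε : ℝ} (hρ : Moll ε ρ) (hχ : ContDiff ℝ ∞ χ) {p₀ : E d}
    (hp : 0 < χ p₀) (u : Fin 3 → E d) : ∃ C : ℝ, 0 ≤ C ∧ ∀ Φ : E d → Al d 2, Integrable Φ →
      |extDeriv (JJ ρ χ Φ) p₀ u| ≤ C * ∫ x, ‖Φ x‖ := by
  have hρc := moll_cs hρ
  choose Ci hCi0 hCi using fun i : Fin 3 =>
    JJ_fd' hχ hp hρ.smooth hρc (i.removeNth u 0) (i.removeNth u 1)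
  refine ⟨∑ i, Ci i * ‖u i‖, Finset.sum_nonneg fun i _ => mul_nonneg (hCi0 i) (norm_nonneg _),
    fun Φ hΦ => ?_⟩
  have hd2 : DifferentiableAt ℝ (JJ ρ χ Φ) p₀ :=
    (JJ_smooth' hχ hp hρ.smooth hρc hΦ).differentiableAt (by simp)
  rw [extDeriv_apply hd2, Finset.sum_mul]
  refine (Finset.abs_sum_le_sum_abs _ _).trans (Finset.sum_le_sum fun i _ => ?_)
  have h1 : |(-1 : ℤ) ^ i.val • fderiv ℝ (fun x => JJ ρ χ Φ x (i.removeNth u)) p₀ (u i)| =
      |fderiv ℝ (fun x => JJ ρ χ Φ x (i.removeNth u)) p₀ (u i)| := by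
    rcases neg_one_pow_eq_or ℤ i.val with h | h <;> rw [h] <;> simp
  have h2 : |fderiv ℝ (fun x => JJ ρ χ Φ x (i.removeNth u)) p₀ (u i)| ≤
      Ci i * ‖u i‖ * ∫ x, ‖Φ x‖ := by
    have h3 := (fderiv ℝ (fun x => JJ ρ χ Φ x (i.removeNth u)) p₀).le_opNorm (u i)
    have h4 := hCi i Φ hΦ
    rw [← pair_eta (i.removeNth u)] at h4
    rw [Real.norm_eq_abs] at h3
    refine h3.trans ?_
    calc _ ≤ (Ci i * ∫ x, ‖Φ x‖) * ‖u i‖ := mul_le_mul_of_nonneg_right h4 (norm_nonneg _)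
      _ = _ := by ring
  refine le_trans (le_of_eq ?_) h2
  convert h1 using 2

end Pool.Agent.U896.SW
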