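import Pool.Agent.U896.SE.MainE
import Pool.Agent.Y604.SY.Pull

/-!
# Measurable closed two-forms: integrable forms which are limits of smooth closed forms
-/

set_option autoImplicit false

open Set Filter Topology MeasureTheory
open scoped Manifold ContDiff ENNReal

noncomputable section

namespace Pool.Agent.U896.SW

open Pool.Agent.Y501.SY (E Moll S_SM)
open Pool.Agent.Y515.SY
open Pool.Agent.U896
open Pool.Agent.U896.SE hiding sq

variable {d : ℕ}

/-- on the set `O`, `s` is integrable and a limit in `L¹` of smooth closed forms -/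
structure LCl (s : E d → Al d 2) (O : Set (E d)) : Prop where
  meas : AEStronglyMeasurable s (volume.restrict O)
  fin : ∫⁻ p in O, ‖s p‖ₑ < ⊤
  app : ∀ δ : ℝ, 0 < δ → ∃ Ψ : E d → Al d 2, ContDiffOn ℝ ∞ Ψ O ∧ (∀ p ∈ O, extDeriv Ψ p = 0) ∧
    ∫⁻ p in O, ‖s p - Ψ p‖ₑ ≤ ENNReal.ofReal δ

theorem LCl.mono {s : E d → Al d 2} {O O' : Set (E d)} (h : LCl s O) (hO : O' ⊆ O) :
    LCl s O' := by
  refine ⟨h.meas.mono_set hO, (lintegral_mono_set hO).trans_lt h.fin, fun δ hδ => ?_⟩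
  obtain ⟨Ψ, h1, h2, h3⟩ := h.app δ hδ
  exact ⟨Ψ, h1.mono hO, fun p hp => h2 p (hO hp), (lintegral_mono_set hO).trans h3⟩

theorem LCl.congr {s s' : E d → Al d 2} {O : Set (E d)} (hO : IsOpen O) (h : LCl s O)
    (hs : ∀ p ∈ O, s' p = s p) : LCl s' O := by
  have hae : s =ᵐ[volume.restrict O] s' := by
    filter_upwards [ae_restrict_mem hO.measurableSet] with p hp
    exact (hs p hp).symm
  refine ⟨h.meas.congr hae, ?_, fun δ hδ => ?_⟩
  · refine lt_of_le_of_lt (le_of_eq ?_) h.fin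
    refine lintegral_congr_ae ?_
    filter_upwards [hae] with p hp
    rw [hp]
  · obtain ⟨Ψ, h1, h2, h3⟩ := h.app δ hδ
    refine ⟨Ψ, h1, h2, le_trans (le_of_eq ?_) h3⟩
    refine lintegral_congr_ae ?_
    filter_upwards [hae] with p hp
    rw [hp]

theorem LCl.add {s η : E d → Al d 2} {O : Set (E d)} (hO : IsOpen O) (h : LCl s O)
    (hη : ContDiffOn ℝ ∞ η O) (hcl : ∀ p ∈ O, extDeriv η p = 0)
    (hfin : ∫⁻ p in O, ‖η p‖ₑ < ⊤) : LCl (fun p => s p + η p) O := by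
  have hm : AEStronglyMeasurable η (volume.restrict O) :=
    hη.continuousOn.aestronglyMeasurable hO.measurableSet
  refine ⟨h.meas.add hm, ?_, fun δ hδ => ?_⟩
  · have h1 : ∀ p, ‖s p + η p‖ₑ ≤ ‖s p‖ₑ + ‖η p‖ₑ := by
      intro p
      rw [← ofReal_norm, ← ofReal_norm, ← ofReal_norm,
        ← ENNReal.ofReal_add (norm_nonneg _) (norm_nonneg _)]
      exact ENNReal.ofReal_le_ofReal (norm_add_le _ _)
    refine (lintegral_mono h1).trans_lt ?_
    rw [lintegral_add_left' h.meas.enorm]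
    exact ENNReal.add_lt_top.2 ⟨h.fin, hfin⟩
  · obtain ⟨Ψ, h1, h2, h3⟩ := h.app δ hδ
    refine ⟨fun p => Ψ p + η p, h1.add hη, fun p hp => ?_, le_trans (le_of_eq ?_) h3⟩
    · have e1 := (h1.contDiffAt (hO.mem_nhds hp)).differentiableAt (by simp)
      have e2 := (hη.contDiffAt (hO.mem_nhds hp)).differentiableAt (by simp)
      have e3 : (fun p => Ψ p + η p) = Ψ + η := rfl
      rw [e3, extDeriv_add e1 e2, h2 p hp, hcl p hp, add_zero]
    · simp only [add_sub_add_right_eq_sub]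

/-- change of variables -/
theorem lint_pull {O O' : Set (E d)} {ψ : E d → E d} (hO' : IsOpen O')
    (hψ : ∀ q ∈ O', HasFDerivAt ψ (fderiv ℝ ψ q) q) (hm : MapsTo ψ O' O) (hinj : InjOn ψ O')
    {μ : ℝ} (hμ : 0 < μ) (hdet : ∀ q ∈ O', μ ≤ |(fderiv ℝ ψ q).det|) (g : E d → ℝ≥0∞) :
    ∫⁻ q in O', g (ψ q) ≤ ENNReal.ofReal μ⁻¹ * ∫⁻ p in O, g p := by
  have h1 : ∫⁻ q in O', ENNReal.ofReal |(fderiv ℝ ψ q).det| * g (ψ q) ≤ ∫⁻ p in O, g p := by
    rw [← lintegral_image_eq_lintegral_abs_det_fderiv_mul volume hO'.measurableSet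
      (fun q hq => (hψ q hq).hasFDerivWithinAt) hinj]
    exact lintegral_mono_set hm.image_subset
  calc ∫⁻ q in O', g (ψ q)
      ≤ ∫⁻ q in O', ENNReal.ofReal μ⁻¹ * (ENNReal.ofReal |(fderiv ℝ ψ q).det| * g (ψ q)) := by
        refine setLIntegral_mono' hO'.measurableSet fun q hq => ?_
        rw [← mul_assoc, ← ENNReal.ofReal_mul (inv_nonneg.2 hμ.le)]
        refine le_mul_of_one_le_left bot_le ?_
        rw [← ENNReal.ofReal_one]
        refine ENNReal.ofReal_le_ofReal ?_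
        rw [inv_mul_eq_div, le_div_iff₀ hμ, one_mul]
        exact hdet q hq
    _ = ENNReal.ofReal μ⁻¹ * ∫⁻ q in O', ENNReal.ofReal |(fderiv ℝ ψ q).det| * g (ψ q) :=
        lintegral_const_mul' _ _ ENNReal.ofReal_ne_top
    _ ≤ _ := by gcongr

theorem ac_pull {O O' : Set (E d)} {ψ : E d → E d} (hO' : IsOpen O')
    (hψ : ∀ q ∈ O', HasFDerivAt ψ (fderiv ℝ ψ q) q) (hm : MapsTo ψ O' O) (hinj : InjOn ψ O')
    {μ : ℝ} (hμ : 0 < μ) (hdet : ∀ q ∈ O', μ ≤ |(fderiv ℝ ψ q).det|) :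
    Measure.map ψ (volume.restrict O') ≪ volume.restrict O := by
  have hc : ContinuousOn ψ O' := fun q hq => (hψ q hq).continuousAt.continuousWithinAt
  have hae : AEMeasurable ψ (volume.restrict O') := hc.aemeasurable hO'.measurableSet
  refine Measure.AbsolutelyContinuous.mk fun A hA h0 => ?_
  rw [Measure.map_apply_of_aemeasurable hae hA]
  have h1 := lint_pull hO' hψ hm hinj hμ hdet (A.indicator 1)
  rw [lintegral_indicator_one hA, h0, mul_zero, nonpos_iff_eq_zero] at h1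
  have h2 : ∀ q, (A.indicator (1 : E d → ℝ≥0∞)) (ψ q) = (ψ ⁻¹' A).indicator 1 q := by
    intro q
    rfl
  simp_rw [h2] at h1
  rwa [lintegral_indicator_one₀ (hae.nullMeasurableSet_preimage hA)] at h1

theorem LCl.pull {s : E d → Al d 2} {O O' : Set (E d)} {ψ : E d → E d} (hO : IsOpen O)
    (hO' : IsOpen O') (hψ : ContDiffOn ℝ ∞ ψ O') (hm : MapsTo ψ O' O) (hinj : InjOn ψ O')
    {M μ : ℝ} (hM : ∀ q ∈ O', ‖fderiv ℝ ψ q‖ ≤ M) (hμ : 0 < μ)
    (hdet : ∀ q ∈ O', μ ≤ |(fderiv ℝ ψ q).det|) (h : LCl s O) :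
    LCl (fun q => (s (ψ q)).compContinuousLinearMap (fderiv ℝ ψ q)) O' := by
  have hψd : ∀ q ∈ O', HasFDerivAt ψ (fderiv ℝ ψ q) q := fun q hq =>
    ((hψ.contDiffAt (hO'.mem_nhds hq)).differentiableAt (by simp)).hasFDerivAt
  have hDc : ContDiffOn ℝ ∞ (fderiv ℝ ψ) O' := hψ.fderiv_of_isOpen hO' (by simp)
  have hae : AEMeasurable ψ (volume.restrict O') :=
    hψ.continuousOn.aemeasurable hO'.measurableSet
  have hac := ac_pull hO' hψd hm hinj hμ hdet
  have hsψ : AEStronglyMeasurable (fun q => s (ψ q)) (volume.restrict O') :=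
    (h.meas.mono_ac hac).comp_aemeasurable hae
  -- the bound of the norms
  have hb : ∀ (t : E d → Al d 2), ∫⁻ q in O', ‖(t (ψ q)).compContinuousLinearMap
      (fderiv ℝ ψ q)‖ₑ ≤ ENNReal.ofReal (M ^ 2) * (ENNReal.ofReal μ⁻¹ * ∫⁻ p in O, ‖t p‖ₑ) := by
    intro t
    have h1 := lint_pull hO' hψd hm hinj hμ hdet (fun p => ‖t p‖ₑ)
    refine le_trans ?_ (mul_le_mul_right h1 _)
    rw [← lintegral_const_mul' _ _ ENNReal.ofReal_ne_top]
    refine setLIntegral_mono' hO'.measurableSet fun q hq => ?_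
    rw [← ofReal_norm, ← ofReal_norm, ← ENNReal.ofReal_mul (by positivity)]
    refine ENNReal.ofReal_le_ofReal ?_
    refine (comp_norm _ _).trans ?_
    rw [mul_comm]
    have h2 := hM q hq
    gcongr
  refine ⟨?_, ?_, fun δ hδ => ?_⟩
  · exact comp_cont.comp_aestronglyMeasurable
      (hsψ.prodMk (hDc.continuousOn.aestronglyMeasurable hO'.measurableSet))
  · refine (hb s).trans_lt ?_
    exact ENNReal.mul_lt_top ENNReal.ofReal_lt_top
      (ENNReal.mul_lt_top ENNReal.ofReal_lt_top h.fin)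
  · obtain ⟨κ, hκ⟩ : ∃ κ : ℝ, κ = M ^ 2 * μ⁻¹ + 1 := ⟨_, rfl⟩
    have hκ0 : 0 < κ := by rw [hκ]; positivity
    obtain ⟨Ψ, h1, h2, h3⟩ := h.app (δ / κ) (by positivity)
    refine ⟨fun q => (Ψ (ψ q)).compContinuousLinearMap (fderiv ℝ ψ q), ?_, ?_, ?_⟩
    · intro q hq
      have g1 : ContDiffAt ℝ ∞ Ψ (ψ q) := h1.contDiffAt (hO.mem_nhds (hm hq))
      have g2 : ContDiffAt ℝ ∞ ψ q := hψ.contDiffAt (hO'.mem_nhds hq)
      have g3 : ContDiffAt ℝ ∞ (fun y => (Ψ (ψ y), fderiv ℝ ψ y)) q :=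
        (g1.comp q g2).prodMk (hDc.contDiffAt (hO'.mem_nhds hq))
      exact (Pool.Agent.Y604.SY.contDiff_pull.contDiffAt.comp q g3).contDiffWithinAt
    · intro q hq
      have g1 : DifferentiableAt ℝ Ψ (ψ q) :=
        (h1.contDiffAt (hO.mem_nhds (hm hq))).differentiableAt (by simp)
      have g2 : ContDiffAt ℝ ∞ ψ q := hψ.contDiffAt (hO'.mem_nhds hq)
      have g3 := extDeriv_pullback g1 g2 (by
        rw [minSmoothness_of_isRCLikeNormedField]
        exact WithTop.coe_le_coe.2 (le_top (a := (2 : ℕ∞))))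
      rw [g3, h2 _ (hm hq)]
      rfl
    · have g1 := hb (fun p => s p - Ψ p)
      have g2 : ∀ q, ‖(s (ψ q)).compContinuousLinearMap (fderiv ℝ ψ q) -
          (Ψ (ψ q)).compContinuousLinearMap (fderiv ℝ ψ q)‖ₑ =
          ‖(s (ψ q) - Ψ (ψ q)).compContinuousLinearMap (fderiv ℝ ψ q)‖ₑ := by
        intro q
        congr 1
      simp_rw [g2]
      refine g1.trans ?_
      calc ENNReal.ofReal (M ^ 2) * (ENNReal.ofReal μ⁻¹ * ∫⁻ p in O, ‖s p - Ψ p‖ₑ)
          ≤ ENNReal.ofReal (M ^ 2) * (ENNReal.ofReal μ⁻¹ * ENNReal.ofReal (δ / κ)) := by gcongr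
        _ = ENNReal.ofReal (M ^ 2 * (μ⁻¹ * (δ / κ))) := by
            rw [ENNReal.ofReal_mul (by positivity), ENNReal.ofReal_mul (by positivity)]
        _ ≤ ENNReal.ofReal δ := by
            refine ENNReal.ofReal_le_ofReal ?_
            rw [← mul_assoc, mul_div_assoc', div_le_iff₀ hκ0, hκ]
            nlinarith

end Pool.Agent.U896.SW
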