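import Pool.Agent.U896.SW.RegM

/-!
# Measurable closed two-forms: mollification of weakly closed forms
-/

set_option autoImplicit false

open Set Filter Topology MeasureTheory
open scoped Manifold ContDiff ENNReal

noncomputable section

namespace Pool.Agent.U896.SW

open Pool.Agent.Y501.SY (E Moll S_SM)
open Pool.Agent.Y515.SY
open Pool.Agent.U896
open Pool.Agent.U896.SE hiding sq aff_null

variable {d : ℕ}

/-- the mollification -/
def mo (ρ : E d → ℝ) (Φ : E d → Al d 2) : E d → Al d 2 := JJ ρ (fun _ => 1) Φ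

theorem mo_smooth {ρ : E d → ℝ} {ε : ℝ} (hρ : Moll ε ρ) {Φ : E d → Al d 2} (hΦ : Integrable Φ)
    (p : E d) : ContDiffAt ℝ ∞ (mo ρ Φ) p :=
  JJ_smooth' (χ := fun _ => 1) contDiff_const one_pos hρ.smooth (moll_cs hρ) hΦ

theorem mo_apply {ρ : E d → ℝ} {ε : ℝ} (hρ : Moll ε ρ) {Φ : E d → Al d 2} (hΦ : Integrable Φ)
    (p v w : E d) : mo ρ Φ p ![v, w] = ∫ q, ρ (q - p) * Φ q ![v, w] := by
  have h1 := JJ_apply' (χ := fun _ => 1) (p := p) hρ.smooth.continuous (moll_cs hρ) hΦ one_pos v w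
  have h2 : ∀ u : E d, fderiv ℝ (fun _ : E d => (1 : ℝ)) p u = 0 := by
    intro u
    rw [(hasFDerivAt_const (1 : ℝ) p).fderiv]
    rfl
  have h3 : ∀ y : E d, ρ y * Φ (p + (1 : ℝ) • y) ![v + fderiv ℝ (fun _ : E d => (1 : ℝ)) p v • y,
      w + fderiv ℝ (fun _ : E d => (1 : ℝ)) p w • y] = (fun q => ρ (q - p) * Φ q ![v, w]) (p + y) := by
    intro y
    rw [h2, h2, zero_smul, add_zero, add_zero, one_smul]
    simp only [add_sub_cancel_left]
  unfold mo
  rw [h1]
  simp_rw [h3]
  exact integral_add_left_eq_self (fun q => ρ (q - p) * Φ q ![v, w]) p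

/-- the derivative of the mollification of a function -/
theorem mo_fderiv {ρ : E d → ℝ} {ε : ℝ} (hρ : Moll ε ρ) {f : E d → ℝ} (hf : Integrable f)
    (p u : E d) : fderiv ℝ (fun x => ∫ q, ρ (q - x) * f q) p u =
      ∫ q, -(fderiv ℝ ρ (q - p) u * f q) := by
  obtain ⟨C, hC⟩ := (hρ.smooth.continuous_fderiv (by simp)).bounded_above_of_compact_support
    ((moll_cs hρ).fderiv ℝ)
  obtain ⟨B, hB⟩ := hρ.smooth.continuous.bounded_above_of_compact_support (moll_cs hρ)
  have hm : ∀ x : E d, AEStronglyMeasurable (fun q => ρ (q - x) * f q) volume := fun x =>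
    ((hρ.smooth.continuous.comp (continuous_id.sub continuous_const)).aestronglyMeasurable).mul
      hf.aestronglyMeasurable
  have hdc : Continuous (fun q => fderiv ℝ ρ (q - p)) :=
    (hρ.smooth.continuous_fderiv (by simp)).comp (continuous_id.sub continuous_const)
  have hi : Integrable (fun q => (f q) • (-fderiv ℝ ρ (q - p))) := by
    refine Integrable.mono' (hf.norm.const_mul C) ?_ (Eventually.of_forall fun q => ?_)
    · exact hf.aestronglyMeasurable.smul hdc.neg.aestronglyMeasurable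
    · rw [norm_smul, norm_neg, mul_comm]
      exact mul_le_mul_of_nonneg_right (hC _) (norm_nonneg _)
  have h1 : HasFDerivAt (fun x => ∫ q, ρ (q - x) * f q) (∫ q, (f q) • (-fderiv ℝ ρ (q - p))) p := by
    refine hasFDerivAt_integral_of_dominated_of_fderiv_le (s := univ) (𝕜 := ℝ)
      (F := fun x q => ρ (q - x) * f q) (F' := fun x q => (f q) • (-fderiv ℝ ρ (q - x)))
      (bound := fun q => C * ‖f q‖)
      Filter.univ_mem (Eventually.of_forall hm) ?_ hi.aestronglyMeasurable
      (Eventually.of_forall fun q x _ => ?_) (hf.norm.const_mul C)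
      (Eventually.of_forall fun q x _ => ?_)
    · refine Integrable.mono' (hf.norm.const_mul B) (hm p) (Eventually.of_forall fun q => ?_)
      rw [norm_mul]
      exact mul_le_mul_of_nonneg_right (hB _) (norm_nonneg _)
    · rw [norm_smul, norm_neg, mul_comm]
      exact mul_le_mul_of_nonneg_right (hC _) (norm_nonneg _)
    · have h2 : HasFDerivAt (fun x : E d => q - x) (-ContinuousLinearMap.id ℝ (E d)) x :=
        (hasFDerivAt_id x).const_sub q
      have h3 : HasFDerivAt ρ (fderiv ℝ ρ (q - x)) (q - x) :=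
        (hρ.smooth.differentiable (by simp) _).hasFDerivAt
      have h4 := (h3.comp x h2).mul_const (f q)
      refine h4.congr_fderiv ?_
      ext v
      simp
  rw [h1.fderiv, ContinuousLinearMap.integral_apply hi]
  refine integral_congr_ae (Eventually.of_forall fun q => ?_)
  change f q * -(fderiv ℝ ρ (q - p) u) = -(fderiv ℝ ρ (q - p) u * f q)
  ring

/-- the mollification of a weakly closed form is closed -/
theorem mo_closed {ρ : E d → ℝ} {ε : ℝ} (hρ : Moll ε ρ) {T Q : Set (E d)}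
    {s : E d → Al d 2} (hΦ : Integrable (Q.indicator s)) {p : E d}
    (hpQ : Metric.closedBall p ε ⊆ Q) (hQT : Q ⊆ T)
    (hw : ∀ g : E d → ℝ, ContDiff ℝ ∞ g → HasCompactSupport g → tsupport g ⊆ T →
      ∀ u v w : E d, ∫ q, (fderiv ℝ g q u * s q ![v, w] - fderiv ℝ g q v * s q ![u, w] +
        fderiv ℝ g q w * s q ![u, v]) = 0) :
    extDeriv (mo ρ (Q.indicator s)) p = 0 := by
  obtain ⟨Φ, hΦd⟩ : ∃ Φ, Φ = Q.indicator s := ⟨_, rfl⟩
  rw [← hΦd] at hΦ ⊢
  apply ContinuousAlternatingMap.ext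
  intro u
  change extDeriv (mo ρ Φ) p u = 0
  have hd : DifferentiableAt ℝ (mo ρ Φ) p := (mo_smooth hρ hΦ p).differentiableAt (by simp)
  rw [extDeriv_apply hd]
  have hfd : ∀ v w a : E d, fderiv ℝ (fun x => mo ρ Φ x ![v, w]) p a =
      ∫ q, -(fderiv ℝ ρ (q - p) a * Φ q ![v, w]) := by
    intro v w a
    have h1 : (fun x => mo ρ Φ x ![v, w]) = fun x => ∫ q, ρ (q - x) * Φ q ![v, w] := by
      funext x
      exact mo_apply hρ hΦ x v w
    rw [h1]
    exact mo_fderiv hρ (ev_int hΦ v w) p a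
  have h0 : (0 : Fin 3).removeNth u = ![u 1, u 2] := by
    rw [pair_eta ((0 : Fin 3).removeNth u)]
    rfl
  have h1 : (1 : Fin 3).removeNth u = ![u 0, u 2] := by
    rw [pair_eta ((1 : Fin 3).removeNth u)]
    rfl
  have h2 : (2 : Fin 3).removeNth u = ![u 0, u 1] := by
    rw [pair_eta ((2 : Fin 3).removeNth u)]
    rfl
  have hii : ∀ v w a : E d, Integrable (fun q => -(fderiv ℝ ρ (q - p) a * Φ q ![v, w])) := by
    intro v w a
    obtain ⟨C, hC⟩ := (hρ.smooth.continuous_fderiv (by simp)).bounded_above_of_compact_support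
      ((moll_cs hρ).fderiv ℝ)
    have hdc : Continuous (fun q => fderiv ℝ ρ (q - p) a) :=
      ((hρ.smooth.continuous_fderiv (by simp)).comp
        (continuous_id.sub continuous_const)).clm_apply continuous_const
    refine Integrable.neg ?_
    refine Integrable.mono' ((ev_int hΦ v w).norm.const_mul (C * ‖a‖)) ?_
      (Eventually.of_forall fun q => ?_)
    · exact hdc.aestronglyMeasurable.mul (ev_int hΦ v w).aestronglyMeasurable
    · rw [norm_mul]
      refine mul_le_mul_of_nonneg_right ?_ (norm_nonneg _)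
      exact (ContinuousLinearMap.le_opNorm _ _).trans
        (mul_le_mul_of_nonneg_right (hC _) (norm_nonneg _))
  have hcs : HasCompactSupport (fun q => ρ (q - p)) := by
    refine HasCompactSupport.intro (isCompact_closedBall p ε) fun q hq => ?_
    refine hρ.supp _ ?_
    rw [Metric.mem_closedBall, not_le, dist_eq_norm] at hq
    exact hq.le
  have hts : tsupport (fun q => ρ (q - p)) ⊆ Metric.closedBall p ε := by
    refine closure_minimal ?_ Metric.isClosed_closedBall
    intro q hq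
    by_contra h
    rw [Metric.mem_closedBall, not_le, dist_eq_norm] at h
    exact hq (hρ.supp _ h.le)
  have hg : ContDiff ℝ ∞ (fun q => ρ (q - p)) := hρ.smooth.comp (contDiff_id.sub contDiff_const)
  have hfg : ∀ q, fderiv ℝ (fun q => ρ (q - p)) q = fderiv ℝ ρ (q - p) := by
    intro q
    have h1 : HasFDerivAt ρ (fderiv ℝ ρ (q - p)) (q - p) :=
      (hρ.smooth.differentiable (by simp) _).hasFDerivAt
    have h2 : HasFDerivAt (fun q : E d => q - p) (ContinuousLinearMap.id ℝ (E d)) q :=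
      (hasFDerivAt_id q).sub_const p
    have h3 := h1.comp q h2
    rw [ContinuousLinearMap.comp_id] at h3
    exact h3.fderiv
  have hout : ∀ q, q ∉ Q → fderiv ℝ ρ (q - p) = 0 := by
    intro q hq
    rw [← hfg]
    have h3 : q ∉ tsupport (fderiv ℝ (fun q => ρ (q - p))) := fun h =>
      hq (hpQ (hts (tsupport_fderiv_subset ℝ h)))
    exact image_eq_zero_of_notMem_tsupport h3
  have h3 := hw _ hg hcs (hts.trans (hpQ.trans hQT)) (u 0) (u 1) (u 2)
  rw [Fin.sum_univ_three, h0, h1, h2, hfd, hfd, hfd]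
  have e1 : ((-1 : ℤ) ^ (0 : Fin 3).val) = 1 := rfl
  have e2 : ((-1 : ℤ) ^ (1 : Fin 3).val) = -1 := rfl
  have e3 : ((-1 : ℤ) ^ (2 : Fin 3).val) = 1 := rfl
  have hAB : Integrable (fun q => -(fderiv ℝ ρ (q - p) (u 0) * Φ q ![u 1, u 2]) -
      -(fderiv ℝ ρ (q - p) (u 1) * Φ q ![u 0, u 2])) := (hii _ _ _).sub (hii _ _ _)
  rw [e1, e2, e3, one_smul, one_smul, neg_smul, one_smul, ← sub_eq_add_neg,
    ← integral_sub (hii _ _ _) (hii _ _ _), ← integral_add hAB (hii _ _ _)]
  have h4 : ∀ q, (-(fderiv ℝ ρ (q - p) (u 0) * Φ q ![u 1, u 2]) -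
      -(fderiv ℝ ρ (q - p) (u 1) * Φ q ![u 0, u 2])) +
      -(fderiv ℝ ρ (q - p) (u 2) * Φ q ![u 0, u 1]) =
      -(fderiv ℝ (fun q => ρ (q - p)) q (u 0) * s q ![u 1, u 2] -
        fderiv ℝ (fun q => ρ (q - p)) q (u 1) * s q ![u 0, u 2] +
        fderiv ℝ (fun q => ρ (q - p)) q (u 2) * s q ![u 0, u 1]) := by
    intro q
    rw [hfg]
    by_cases hq : q ∈ Q
    · have h5 : Φ q = s q := by rw [hΦd]; exact indicator_of_mem hq _
      rw [h5]
      ring
    · rw [hout q hq]
      simp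
  have h5 : ∫ q, ((-(fderiv ℝ ρ (q - p) (u 0) * Φ q ![u 1, u 2]) -
      -(fderiv ℝ ρ (q - p) (u 1) * Φ q ![u 0, u 2])) +
      -(fderiv ℝ ρ (q - p) (u 2) * Φ q ![u 0, u 1])) = 0 := by
    simp_rw [h4]
    rw [integral_neg, h3, neg_zero]
  exact h5

end Pool.Agent.U896.SW
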